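import Mathlib
import Pool.Agent.Helper17.CT.Defs
import Pool.Agent.Helper32.CT.Spec
import Pool.Agent.Helper29.CT.Parity
import Pool.Agent.Helper75.CT.ColParity
import Pool.Agent.Helper45.CT.Glue

set_option autoImplicit false

namespace Pool.Agent.Helper17.CT

section smith
variable {D : Type} (M : CMap D)

/-- the three darts at the vertex of `d` -/
def ct9_iota (d : D) (j : Fin 3) : D := (M.s)^[j.val] d

/-- the piece with one vertex -/
def ct9_piece : Inner (Fin 3) 3 where
  s := fun x => x + 1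
  e := fun x => x
  q := fun x => x
  s3 := by decide
  s1 := by decide
  e2 := fun x h => absurd rfl (h x)
  e1 := fun x h => absurd rfl (h x)
  eq := fun x h => absurd rfl (h x)
  qi := fun _ _ h => h

theorem ct9_hs (d : D) (x : Fin 3) : ct9_iota M d (x + 1) = M.s (ct9_iota M d x) := by
  fin_cases x
  · rfl
  · rfl
  · exact (M.s3 d).symm

theorem ct9_inj (d : D) : Function.Injective (ct9_iota M d) := by
  have h1 : d ≠ M.s d := fun h => M.s1 d h.symm
  have h2 : M.s d ≠ M.s (M.s d) := fun h => M.s1 (M.s d) h.symm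
  have h3 : d ≠ M.s (M.s d) := by
    intro h
    have h4 : M.s d = d := by
      have := congrArg M.s h
      rw [M.s3] at this
      exact this
    exact M.s1 d h4
  intro x y hxy
  fin_cases x <;> fin_cases y
  · rfl
  · exact absurd hxy h1
  · exact absurd hxy h3
  · exact absurd hxy.symm h1
  · rfl
  · exact absurd hxy h2
  · exact absurd hxy.symm h3
  · exact absurd hxy.symm h2
  · rfl

/-- the embedding of the one vertex piece -/
def ct9_emb (d : D) : Emb ct9_piece M where
  ι := ct9_iota M d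
  inj := ct9_inj M d
  hs := ct9_hs M d
  he := fun x h => absurd rfl (h x)

theorem ct9_mem (d x : D) : x ∈ (ct9_emb M d).HSet := by
  by_cases h : ∀ y, (ct9_emb M d).ι y ≠ x
  · exact Or.inl h
  · push Not at h
    obtain ⟨y, hy⟩ := h
    exact Or.inr ⟨y, hy⟩

theorem ct9_one {p : Fin 3 → Bool} (h : One (p 0) (p 1) (p 2)) (c : Fin 3) (hc : p c = false)
    (j : Fin 3) : p j = true ↔ j ≠ c := by
  rcases h with ⟨h0, h1, h2⟩ | ⟨h0, h1, h2⟩ | ⟨h0, h1, h2⟩ <;>
    fin_cases c <;> fin_cases j <;> simp_all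

/-- in a system of the outer pole of a vertex with two used ports the two ends have different
colours -/
theorem ct9_eps [Finite D] (d : D) (O : (ct9_emb M d).HSet → Bool) (b : Fin 3 → Fin 3)
    (ε : Fin 3 → Bool) (hs : (ct9_emb M d).outer.Spec O b ε) (c : Fin 3)
    (hu : ∀ j, O ((ct9_emb M d).outer.port j) = true ↔ j ≠ c) (j : Fin 3) (hj : b j ≠ j) :
    ¬ ε j = true := by
  intro hε
  obtain ⟨a, ha, a', ha', haa⟩ : ∃ a : Fin 3, a ≠ c ∧ ∃ a', a' ≠ c ∧ a' ≠ a := by
    fin_cases c
    · exact ⟨1, by decide, 2, by decide, by decide⟩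
    · exact ⟨0, by decide, 2, by decide, by decide⟩
    · exact ⟨0, by decide, 1, by decide, by decide⟩
  have hbu : ∀ i, i ≠ c ↔ b i ≠ i := fun i => (hu i).symm.trans (hs.use i)
  have hbi : ∀ i, i ≠ c → b i ≠ c := by
    intro i hi
    rw [hbu, hs.inv]
    intro h
    exact ((hbu i).1 hi) h.symm
  have hεall : ∀ i, i ≠ c → ε i = true := by
    intro i hi
    have hjc : j ≠ c := (hbu j).2 hj
    by_cases hij : i = j
    · rw [hij]; exact hε
    · have h1 : i = b j := by
        have h2 : b j ≠ c := hbi j hjc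
        have h3 : ∀ (x y z w : Fin 3), x ≠ w → y ≠ w → z ≠ w → x ≠ y → z ≠ y → x = z := by decide
        exact h3 i j (b j) c hi hjc h2 hij hj
      rw [h1, hs.eps]
      exact hε
  obtain ⟨κ, hκ⟩ : ∃ κ : Fin 3 → Fin 3, ∀ i, κ i = if i = c then c else a := ⟨_, fun _ => rfl⟩
  have hκ1 : ∀ i, κ i ≠ c ↔ O ((ct9_emb M d).outer.port i) = true := by
    intro i
    rw [hu, hκ]
    split_ifs with h
    · simp [h]
    · simp [h, ha]
  obtain ⟨γ, hγ, hp, -⟩ := (hs.alt κ c hκ1).2 (by
    intro i hi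
    rw [hu] at hi
    rw [hκ, hκ, if_neg (hbi i hi), if_neg hi]
    simp [hεall i hi])
  have h5 := col_parity (ct9_emb M d).outer γ hγ c a'
  have h6 : Nat.card {i : Fin 3 // γ ((ct9_emb M d).outer.port i) = c} = 1 := by
    rw [Nat.card_eq_one_iff_unique]
    refine ⟨⟨?_⟩, ⟨⟨c, by rw [hp, hκ, if_pos rfl]⟩⟩⟩
    rintro ⟨x, hx⟩ ⟨y, hy⟩
    apply Subtype.ext
    rw [hp, hκ] at hx hy
    have hx' : x = c := by
      by_contra hne
      rw [if_neg hne] at hx
      exact ha hx
    have hy' : y = c := by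
      by_contra hne
      rw [if_neg hne] at hy
      exact ha hy
    exact hx'.trans hy'.symm
  have h7 : Nat.card {i : Fin 3 // γ ((ct9_emb M d).outer.port i) = a'} = 0 := by
    rw [Nat.card_eq_zero]
    left
    refine ⟨?_⟩
    rintro ⟨x, hx⟩
    rw [hp, hκ] at hx
    split_ifs at hx with h8
    · exact ha' hx.symm
    · exact haa hx.symm
  rw [h6, h7] at h5
  exact absurd h5 (by decide)

/-- the Hamilton cycles omitting one of the darts at a vertex correspond to systems -/
theorem ct9_card [Finite D] (d : D) (b : ((ct9_emb M d).HSet → Bool) → Fin 3 → Fin 3)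
    (ε : ((ct9_emb M d).HSet → Bool) → Fin 3 → Bool)
    (hs : ∀ O, (ct9_emb M d).outer.Sys O → (ct9_emb M d).outer.Spec O (b O) (ε O)) (c : Fin 3) :
    Nat.card {V : D → Bool // M.IsHam V ∧ V (ct9_iota M d c) = false} =
      Nat.card {O : (ct9_emb M d).HSet → Bool //
        (ct9_emb M d).outer.Sys O ∧ Compat (b O) (ε O) (fun j => j) c} := by
  have hport : ∀ j, ((ct9_emb M d).outer.port j).1 = ct9_iota M d j := fun j => rfl
  refine Nat.card_congr
    { toFun := fun V => ⟨fun x => V.1 x.1, ?_, ?_⟩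
      invFun := fun O => ⟨(ct9_emb M d).glue (fun x => decide (x ≠ c)) O.1, ?_, ?_⟩
      left_inv := ?_
      right_inv := ?_ }
  · exact sys_of_ham (ct9_emb M d) V.1 V.2.1
  · have h1 := sys_of_ham (ct9_emb M d) V.1 V.2.1
    have h2 := hs _ h1
    have hone : One (V.1 (ct9_iota M d 0)) (V.1 (ct9_iota M d 1)) (V.1 (ct9_iota M d 2)) :=
      V.2.1.one d
    have hu : ∀ j, V.1 (ct9_iota M d j) = true ↔ j ≠ c :=
      ct9_one (p := fun j => V.1 (ct9_iota M d j)) hone c V.2.2
    intro j
    have h3 := h2.use j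
    refine ⟨(hu j).symm.trans h3, fun hj => ?_⟩
    have h4 := ct9_eps M d _ _ _ h2 c hu j hj
    constructor
    · intro h; exact absurd h hj
    · intro h; exact absurd h h4
  · have h2 := hs _ O.2.1
    refine glue_ham (ct9_emb M d) _ O.1 (b O.1) (ε O.1) O.2.1 h2 ?_
    refine ⟨fun x h => absurd rfl (h x), ?_, ?_, ?_⟩
    · intro x
      have h3 : ∀ x c : Fin 3, One (decide (x ≠ c)) (decide (x + 1 ≠ c)) (decide (x + 1 + 1 ≠ c)) := by
        unfold One
        decide
      exact h3 x c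
    · intro j
      rw [decide_eq_true_iff]
      exact (O.2.2 j).1
    · intro x y hx hy
      have h4 : ∀ x y : Fin 3, x = y ∨ y = x + 1 ∨ y = x + 1 + 1 := by decide
      rcases h4 x y with h | h | h
      · rw [h]
      · exact Relation.ReflTransGen.single ⟨hx, hy, Or.inl h⟩
      · exact Relation.ReflTransGen.single ⟨hx, hy, Or.inr (Or.inl h)⟩
  · have h5 := glue_inner (ct9_emb M d) (fun x => decide (x ≠ c)) O.1 c
    have h6 : (ct9_emb M d).ι c = ct9_iota M d c := rfl
    rw [h6] at h5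
    rw [h5]
    simp
  · rintro ⟨V, hV, hVc⟩
    apply Subtype.ext
    funext x
    have hone : One (V (ct9_iota M d 0)) (V (ct9_iota M d 1)) (V (ct9_iota M d 2)) := hV.one d
    have hu : ∀ j, V (ct9_iota M d j) = true ↔ j ≠ c :=
      ct9_one (p := fun j => V (ct9_iota M d j)) hone c hVc
    refine glue_outer (ct9_emb M d) (fun x => decide (x ≠ c)) (fun x => V x.1) ?_
      ⟨x, ct9_mem M d x⟩
    intro j
    change decide (j ≠ c) = V (ct9_iota M d j)
    rw [Bool.eq_iff_iff, decide_eq_true_iff]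
    exact (hu j).symm
  · rintro ⟨O, hO, hc⟩
    apply Subtype.ext
    funext x
    refine glue_outer (ct9_emb M d) (fun x => decide (x ≠ c)) O ?_ x
    intro j
    change decide (j ≠ c) = O ((ct9_emb M d).outer.port j)
    rw [Bool.eq_iff_iff, decide_eq_true_iff, (hs O hO).use j]
    exact (hc j).1

/-- the numbers of Hamilton cycles omitting the darts of a vertex have the same parity -/
theorem ct9_parity [Finite D] (d : D) (c c' : Fin 3) :
    Nat.card {V : D → Bool // M.IsHam V ∧ V (ct9_iota M d c) = false} ≡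
      Nat.card {V : D → Bool // M.IsHam V ∧ V (ct9_iota M d c') = false} [MOD 2] := by
  classical
  have hex : ∀ O : (ct9_emb M d).HSet → Bool, ∃ (b : Fin 3 → Fin 3) (ε : Fin 3 → Bool),
      (ct9_emb M d).outer.Sys O → (ct9_emb M d).outer.Spec O b ε := by
    intro O
    by_cases hO : (ct9_emb M d).outer.Sys O
    · obtain ⟨b, ε, h⟩ := exists_spec (ct9_emb M d).outer O hO
      exact ⟨b, ε, fun _ => h⟩
    · exact ⟨id, fun _ => false, fun h => absurd h hO⟩
  choose b ε hs using hex
  rw [ct9_card M d b ε hs c, ct9_card M d b ε hs c']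
  exact parity_law (ct9_emb M d).outer b ε hs (fun j => j) c c'

/-- CT-9 -/
theorem smith [Finite D] (U : Fin 3 → D → Bool) (hU : M.Three U) : ∃ γ : D → Fin 3, M.Tri γ := by
  classical
  -- number of the three cycles omitting a dart
  obtain ⟨m, hm⟩ : ∃ m : D → ℕ, ∀ x, m x = Nat.card {i : Fin 3 // U i x = false} :=
    ⟨_, fun _ => rfl⟩
  have hcard : ∀ x, Nat.card {V : D → Bool // M.IsHam V ∧ V x = false} = m x := by
    intro x
    rw [hm]
    refine (Nat.card_congr (Equiv.ofBijective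
      (fun i : {i : Fin 3 // U i x = false} =>
        (⟨U i.1, hU.ham i.1, i.2⟩ : {V : D → Bool // M.IsHam V ∧ V x = false})) ⟨?_, ?_⟩)).symm
    · rintro ⟨i, hi⟩ ⟨j, hj⟩ hij
      apply Subtype.ext
      exact hU.inj (congrArg Subtype.val hij)
    · rintro ⟨V, hV, hVx⟩
      obtain ⟨i, rfl⟩ := hU.all V hV
      exact ⟨⟨i, hVx⟩, rfl⟩
  have hsum : ∀ x, m x + m (M.s x) + m (M.s (M.s x)) = 3 := by
    intro x
    have h1 : ∀ y, m y = ∑ i : Fin 3, if U i y = false then 1 else 0 := by
      intro y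
      rw [hm, Nat.card_eq_fintype_card, Fintype.card_subtype, Finset.card_filter]
    rw [h1, h1, h1, ← Finset.sum_add_distrib, ← Finset.sum_add_distrib]
    have h2 : ∀ i : Fin 3, ((if U i x = false then 1 else 0) + (if U i (M.s x) = false then 1 else 0)
        + (if U i (M.s (M.s x)) = false then 1 else 0) : ℕ) = 1 := by
      intro i
      rcases (hU.ham i).one x with ⟨h3, h4, h5⟩ | ⟨h3, h4, h5⟩ | ⟨h3, h4, h5⟩ <;>
        rw [h3, h4, h5] <;> rfl
    rw [Finset.sum_congr rfl fun i _ => h2 i]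
    rfl
  have hone : ∀ x, m x = 1 := by
    intro x
    have p1 := ct9_parity M x 0 1
    have p2 := ct9_parity M x 0 2
    rw [hcard, hcard] at p1 p2
    change m x ≡ m (M.s x) [MOD 2] at p1
    change m x ≡ m (M.s (M.s x)) [MOD 2] at p2
    have h3 := hsum x
    unfold Nat.ModEq at p1 p2
    omega
  have hun : ∀ x, ∃ i, ∀ j, U j x = false ↔ j = i := by
    intro x
    have h1 := hone x
    rw [hm, Nat.card_eq_one_iff_unique] at h1
    obtain ⟨⟨h2⟩, ⟨i, hi⟩⟩ := h1
    refine ⟨i, fun j => ⟨fun hj => ?_, fun hj => by rw [hj]; exact hi⟩⟩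
    exact congrArg Subtype.val (h2 ⟨j, hj⟩ ⟨i, hi⟩)
  choose γ hγ using hun
  have hUγ : ∀ i, (fun x => decide (γ x ≠ i)) = U i := by
    intro i
    funext x
    rw [Bool.eq_iff_iff, decide_eq_true_iff]
    constructor
    · intro h
      by_contra h'
      rw [Bool.not_eq_true] at h'
      exact h ((hγ x i).1 h').symm
    · intro h h'
      rw [(hγ x i).2 h'.symm] at h
      exact Bool.false_ne_true h
  refine ⟨γ, ⟨?_, ?_, ?_, ?_⟩⟩
  · intro x
    have h1 := (hU.ham (γ x)).acl x
    rw [(hγ x (γ x)).2 rfl] at h1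
    exact ((hγ (M.a x) (γ x)).1 h1).symm
  · intro x h
    have h1 := (hU.ham (γ x)).one x
    have h2 : U (γ x) x = false := (hγ x (γ x)).2 rfl
    have h3 : U (γ x) (M.s x) = false := (hγ (M.s x) (γ x)).2 h.symm
    rw [h2, h3] at h1
    rcases h1 with ⟨-, h4, -⟩ | ⟨h4, -, -⟩ | ⟨h4, -, -⟩
    · exact Bool.false_ne_true h4
    · exact Bool.false_ne_true h4
    · exact Bool.false_ne_true h4
  · intro i
    rw [hUγ i]
    exact hU.ham i
  · intro V hV
    obtain ⟨i, rfl⟩ := hU.all V hV
    exact ⟨i, (hUγ i).symm⟩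

end smith

end Pool.Agent.Helper17.CT
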