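import Pool.Agent.Helper17.CT.Defs

/-!
# CT-21: a simple cubic map with twelve darts is the complete graph on four vertices
-/

set_option autoImplicit false

namespace Pool.Agent.Helper17.CT

/-- the Moebius ladder with `4 + 2 k` vertices -/
def ct21_lad (k : ℕ) : SimpleGraph (Fin (4 + 2 * k)) where
  Adj x y := y.val = x.val + 1 ∨ x.val = y.val + 1 ∨ y.val = x.val + (2 + k) ∨
    x.val = y.val + (2 + k) ∨ (x.val = 0 ∧ y.val = 3 + 2 * k) ∨ (y.val = 0 ∧ x.val = 3 + 2 * k)
  symm := ⟨fun x y h => by omega⟩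
  loopless := ⟨fun x h => by omega⟩

theorem ct21_lad_adj (k : ℕ) (x y : Fin (4 + 2 * k)) : (ct21_lad k).Adj x y ↔
    (y.val = x.val + 1 ∨ x.val = y.val + 1 ∨ y.val = x.val + (2 + k) ∨
    x.val = y.val + (2 + k) ∨ (x.val = 0 ∧ y.val = 3 + 2 * k) ∨
      (y.val = 0 ∧ x.val = 3 + 2 * k)) := Iff.rfl

theorem ct21_lad_zero : ct21_lad 0 = (⊤ : SimpleGraph (Fin (4 + 2 * 0))) := by
  ext x y
  rw [ct21_lad_adj, SimpleGraph.top_adj, Ne, Fin.ext_iff]
  have hx := x.isLt
  have hy := y.isLt
  omega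

theorem ct21_lad_cubic (k : ℕ) (x : Fin (4 + 2 * k)) :
    ((ct21_lad k).neighborSet x).ncard = 3 := by
  have hx := x.isLt
  obtain ⟨p, hp⟩ : ∃ p : Fin (4 + 2 * k), (x.val = 3 + 2 * k ∧ p.val = 0) ∨
      (x.val < 3 + 2 * k ∧ p.val = x.val + 1) := by
    by_cases h : x.val = 3 + 2 * k
    · exact ⟨⟨0, by omega⟩, Or.inl ⟨h, rfl⟩⟩
    · exact ⟨⟨x.val + 1, by omega⟩, Or.inr ⟨by omega, rfl⟩⟩
  obtain ⟨q, hq⟩ : ∃ q : Fin (4 + 2 * k), (x.val = 0 ∧ q.val = 3 + 2 * k) ∨
      (0 < x.val ∧ q.val + 1 = x.val) := by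
    by_cases h : x.val = 0
    · exact ⟨⟨3 + 2 * k, by omega⟩, Or.inl ⟨h, rfl⟩⟩
    · exact ⟨⟨x.val - 1, by omega⟩, Or.inr ⟨by omega, by
        change x.val - 1 + 1 = x.val
        omega⟩⟩
  obtain ⟨r, hr⟩ : ∃ r : Fin (4 + 2 * k), (x.val < 2 + k ∧ r.val = x.val + (2 + k)) ∨
      (2 + k ≤ x.val ∧ r.val + (2 + k) = x.val) := by
    by_cases h : x.val < 2 + k
    · exact ⟨⟨x.val + (2 + k), by omega⟩, Or.inl ⟨h, rfl⟩⟩
    · exact ⟨⟨x.val - (2 + k), by omega⟩, Or.inr ⟨by omega, by
        change x.val - (2 + k) + (2 + k) = x.val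
        omega⟩⟩
  rw [Set.ncard_eq_three]
  refine ⟨p, q, r, ?_, ?_, ?_, ?_⟩
  · rw [Ne, Fin.ext_iff]; omega
  · rw [Ne, Fin.ext_iff]; omega
  · rw [Ne, Fin.ext_iff]; omega
  · ext y
    have hy := y.isLt
    rw [SimpleGraph.mem_neighborSet, ct21_lad_adj, Set.mem_insert_iff, Set.mem_insert_iff,
      Set.mem_singleton_iff, Fin.ext_iff, Fin.ext_iff, Fin.ext_iff]
    omega

theorem ct21_veq {D : Type} (M : CMap D) : Equivalence M.VEq where
  refl := fun x => Or.inl rfl
  symm := by
    rintro x y (rfl | rfl | rfl)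
    · exact Or.inl rfl
    · exact Or.inr (Or.inr (M.s3 x).symm)
    · exact Or.inr (Or.inl (M.s3 x).symm)
  trans := by
    rintro x y z (rfl | rfl | rfl) (rfl | rfl | rfl)
    · exact Or.inl rfl
    · exact Or.inr (Or.inl rfl)
    · exact Or.inr (Or.inr rfl)
    · exact Or.inr (Or.inl rfl)
    · exact Or.inr (Or.inr rfl)
    · exact Or.inl (M.s3 x)
    · exact Or.inr (Or.inr rfl)
    · exact Or.inl (M.s3 x)
    · exact Or.inr (Or.inl (by rw [M.s3]))

theorem ct21_fib {D : Type} (M : CMap D) (d : D) : {x | M.VEq d x}.ncard = 3 := by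
  rw [Set.ncard_eq_three]
  refine ⟨d, M.s d, M.s (M.s d), ?_, ?_, ?_, ?_⟩
  · exact fun h => M.s1 d h.symm
  · intro h
    have := congrArg M.s h
    rw [M.s3] at this
    exact M.s1 d this
  · exact fun h => M.s1 (M.s d) h.symm
  · ext x
    rfl

theorem stk_base {D : Type} (M : CMap D) (h : Nat.card D = 12) (hs : M.Simple) : M.Stk := by
  classical
  have hfin : Finite D := Nat.finite_of_card_ne_zero (by rw [h]; norm_num)
  let S : Setoid D := ⟨M.VEq, ct21_veq M⟩
  have hQ : Nat.card (Quotient S) = 4 + 2 * 0 := by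
    have hfinQ : Finite (Quotient S) := inferInstance
    have := Fintype.ofFinite (Quotient S)
    have h1 : Nat.card D = ∑ q : Quotient S, Nat.card {d : D // Quotient.mk S d = q} := by
      rw [← Nat.card_sigma, Nat.card_congr (Equiv.sigmaFiberEquiv (Quotient.mk S))]
    have h2 : ∀ q : Quotient S, Nat.card {d : D // Quotient.mk S d = q} = 3 := by
      intro q
      induction q using Quotient.inductionOn with
      | h d =>
        have h3 : {x : D | Quotient.mk S x = Quotient.mk S d} = {x | M.VEq d x} := by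
          ext x
          change Quotient.mk S x = Quotient.mk S d ↔ _
          rw [Quotient.eq (r := S)]
          exact ⟨(ct21_veq M).symm, (ct21_veq M).symm⟩
        have h4 := ct21_fib M d
        rw [← h3] at h4
        exact h4
    rw [h, Finset.sum_congr rfl fun q _ => h2 q, Finset.sum_const, Finset.card_univ,
      smul_eq_mul, ← Nat.card_eq_fintype_card] at h1
    omega
  have hfinQ : Finite (Quotient S) := inferInstance
  let e : Quotient S ≃ Fin (4 + 2 * 0) := Finite.equivFinOfCardEq hQ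
  have hv : ∀ d d' : D, e (Quotient.mk S d) = e (Quotient.mk S d') ↔ M.VEq d d' := by
    intro d d'
    rw [e.apply_eq_iff_eq, Quotient.eq (r := S)]
    rfl
  refine ⟨0, ct21_lad, ct21_lad_zero, ct21_lad_cubic, fun k hk => absurd hk (Nat.not_lt_zero k),
    fun d => e (Quotient.mk S d), ?_, hv, ?_⟩
  · exact e.surjective.comp Quotient.mk_surjective
  · intro x y
    rw [ct21_lad_zero, SimpleGraph.top_adj]
    constructor
    · intro hxy
      obtain ⟨d, hd⟩ := (e.surjective.comp Quotient.mk_surjective) x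
      have hd' : e (Quotient.mk S d) = x := hd
      -- the three neighbours
      have hinj : Set.InjOn (fun c => e (Quotient.mk S (M.a c))) {c | M.VEq d c} := by
        intro c hc c' hc' hcc
        have h5 : M.VEq c c' := (ct21_veq M).trans ((ct21_veq M).symm hc) hc'
        exact hs.2 c c' h5 ((hv _ _).1 hcc)
      have himg : ((fun c => e (Quotient.mk S (M.a c))) '' {c | M.VEq d c}) = {z | z ≠ x} := by
        refine Set.eq_of_subset_of_ncard_le ?_ ?_ (Set.toFinite _)
        · rintro _ ⟨c, hc, rfl⟩ h6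
          have h7 : e (Quotient.mk S (M.a c)) = e (Quotient.mk S c) := by
            refine Eq.trans h6 ?_
            rw [← hd']
            exact (hv _ _).2 hc
          exact hs.1 c ((ct21_veq M).symm ((hv _ _).1 h7))
        · rw [hinj.ncard_image, ct21_fib]
          have h8 : {z : Fin (4 + 2 * 0) | z ≠ x} = ((Finset.univ.erase x : Finset _) : Set _) := by
            ext z
            simp
          rw [h8, Set.ncard_coe_finset, Finset.card_erase_of_mem (Finset.mem_univ x)]
          simp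
      have hy : y ∈ {z : Fin (4 + 2 * 0) | z ≠ x} := fun h => hxy h.symm
      rw [← himg] at hy
      obtain ⟨c, hc, hcy⟩ := hy
      exact ⟨c, by rw [← hd']; exact ((hv _ _).2 hc).symm, hcy⟩
    · rintro ⟨d, hx, hy⟩ h9
      exact hs.1 d ((hv _ _).1 (hx.trans (h9.trans hy.symm)))

end Pool.Agent.Helper17.CT
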